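import Pool.Agent.H65.PK.Targets

/-!
# MP_58ae59_nt, product kernel in transcendence degree one: normal form of bilinear relations
(helper88)
-/

set_option autoImplicit false

open Polynomial Module Filter Topology

namespace Pool.Agent.H88.PKER

open Pool.Agent.H65.PK (T_NFM)

/-- diagonalization of a rational quadratic form -/
theorem NFM_diag (J : Type) [Fintype J] [DecidableEq J] (S : J → J → ℚ)
    (hS : ∀ s t, S s t = S t s) :
    ∃ (r : ℕ) (P : Fin r → J → ℚ) (c : Fin r → ℚ), (∀ k, c k ≠ 0) ∧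
      (∀ s t, S s t = ∑ k, c k * P k s * P k t) ∧
      ∀ z : Fin r → ℚ, (∀ s, ∑ k, z k * P k s = 0) → z = 0 := by
  classical
  set B : LinearMap.BilinForm ℚ (J → ℚ) := Matrix.toBilin' (Matrix.of S) with hBdef
  have hBe : ∀ s t, B (Pi.single s 1) (Pi.single t 1) = S s t := by
    intro s t
    rw [hBdef, Matrix.toBilin'_single]
    rfl
  have hB : LinearMap.IsSymm B := by
    constructor
    intro x y
    simp only [hBdef, Matrix.toBilin'_apply, Matrix.of_apply, RingHom.id_apply]
    rw [Finset.sum_comm]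
    refine Finset.sum_congr rfl fun i _ => Finset.sum_congr rfl fun j _ => ?_
    rw [hS j i]
    ring
  obtain ⟨v, hv⟩ := LinearMap.BilinForm.exists_orthogonal_basis hB
  set d : Fin (finrank ℚ (J → ℚ)) → ℚ := fun k => B (v k) (v k) with hd
  have hvij : ∀ i j, i ≠ j → B (v i) (v j) = 0 := fun i j hij => hv hij
  have hexp : ∀ s t, S s t = ∑ k, d k * v.repr (Pi.single s 1) k * v.repr (Pi.single t 1) k := by
    intro s t
    rw [← hBe s t]
    conv_lhs => rw [← v.sum_repr (Pi.single s (1 : ℚ)), ← v.sum_repr (Pi.single t (1 : ℚ))]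
    simp only [map_sum, LinearMap.sum_apply, map_smul, LinearMap.smul_apply, smul_eq_mul]
    refine Finset.sum_congr rfl fun k _ => ?_
    rw [Finset.sum_eq_single k]
    · rw [hd]
      ring
    · intro j _ hj
      rw [hvij j k hj]
      ring
    · intro h
      exact absurd (Finset.mem_univ k) h
  let e := (Fintype.equivFin {k // d k ≠ 0}).symm
  refine ⟨Fintype.card {k // d k ≠ 0}, fun k s => v.repr (Pi.single s 1) (e k).1,
    fun k => d (e k).1, fun k => (e k).2, ?_, ?_⟩
  · intro s t
    rw [hexp s t, e.sum_comp (fun k : {k // d k ≠ 0} =>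
      d k.1 * v.repr (Pi.single s 1) k.1 * v.repr (Pi.single t 1) k.1),
      ← Fintype.sum_subtype_add_sum_subtype (fun k => d k ≠ 0)]
    have : ∑ i : {k // ¬ d k ≠ 0},
        d i.1 * v.repr (Pi.single s 1) i.1 * v.repr (Pi.single t 1) i.1 = 0 := by
      refine Finset.sum_eq_zero fun i _ => ?_
      rw [not_not.1 i.2]
      ring
    rw [this, add_zero]
  · intro z hz
    let f : (J → ℚ) →ₗ[ℚ] ℚ := ∑ k, z k • v.coord (e k).1
    have hf : f = 0 := by
      refine (Pi.basisFun ℚ J).ext fun s => ?_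
      simp only [f, LinearMap.sum_apply, LinearMap.smul_apply, Pi.basisFun_apply,
        Basis.coord_apply, smul_eq_mul, LinearMap.zero_apply]
      exact hz s
    funext k
    have h1 : f (v (e k).1) = 0 := by rw [hf]; rfl
    simp only [f, LinearMap.sum_apply, LinearMap.smul_apply, Basis.coord_apply, smul_eq_mul,
      Basis.repr_self] at h1
    rw [Finset.sum_eq_single k] at h1
    · simpa using h1
    · intro j _ hj
      rw [Finsupp.single_eq_of_ne, mul_zero]
      intro h
      exact hj (e.injective (Subtype.ext h))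
    · intro h
      exact absurd (Finset.mem_univ k) h

/-- a linearly independent family times independent rows -/
theorem NFM_li {J : Type} [Fintype J] {r : ℕ} {P : Fin r → J → ℚ} {β : J → ℝ}
    (hβ : LinearIndependent ℚ β) (hP : ∀ z : Fin r → ℚ, (∀ s, ∑ k, z k * P k s = 0) → z = 0) :
    LinearIndependent ℚ (fun k => ∑ s, P k s • β s) := by
  rw [Fintype.linearIndependent_iff] at hβ ⊢
  intro z hz
  have h1 : ∑ s, (∑ k, z k * P k s) • β s = 0 := by
    rw [← hz]
    simp only [Finset.smul_sum, Finset.sum_smul, smul_smul]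
    rw [Finset.sum_comm]
  intro k
  rw [hP z (hβ _ h1)]
  rfl

/-- the value of the diagonalized form -/
theorem NFM_val {J : Type} [Fintype J] {r : ℕ} {P : Fin r → J → ℚ} {c : Fin r → ℚ}
    {S u : J → J → ℚ} (hS : ∀ s t, S s t = (u s t + u t s) / 2)
    (h : ∀ s t, S s t = ∑ k, c k * P k s * P k t) (β : J → ℝ) :
    ∑ k, (c k : ℝ) * (∑ s, P k s • β s) ^ 2 = ∑ s, ∑ t, (u s t : ℝ) * β t * β s := by
  have h1 : ∑ k, (c k : ℝ) * (∑ s, P k s • β s) ^ 2 = ∑ s, ∑ t, (S s t : ℝ) * β t * β s := by
    have : ∀ s t, (S s t : ℝ) = ∑ k, (c k : ℝ) * P k s * P k t := by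
      intro s t
      rw [h s t]
      push_cast
      rfl
    simp only [this, Rat.smul_def, sq, Finset.sum_mul, Finset.mul_sum]
    rw [Finset.sum_comm]
    refine Finset.sum_congr rfl fun s _ => ?_
    rw [Finset.sum_comm]
    refine Finset.sum_congr rfl fun t _ => Finset.sum_congr rfl fun k _ => ?_
    ring
  rw [h1]
  have h2 : ∑ s, ∑ t, (u t s : ℝ) * β t * β s = ∑ s, ∑ t, (u s t : ℝ) * β t * β s := by
    rw [Finset.sum_comm]
    refine Finset.sum_congr rfl fun s _ => Finset.sum_congr rfl fun t _ => ?_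
    ring
  have h3 : ∑ s, ∑ t, (S s t : ℝ) * β t * β s =
      (∑ s, ∑ t, (u s t : ℝ) * β t * β s + ∑ s, ∑ t, (u t s : ℝ) * β t * β s) / 2 := by
    rw [← Finset.sum_add_distrib, Finset.sum_div]
    refine Finset.sum_congr rfl fun s _ => ?_
    rw [← Finset.sum_add_distrib, Finset.sum_div]
    refine Finset.sum_congr rfl fun t _ => ?_
    rw [hS s t]
    push_cast
    ring
  rw [h3, h2]
  ring

/-- the case that all `m i` are in the span of `l` -/
theorem NFM_caseA (n : ℕ) (l m : Fin n → ℝ) (hl : LinearIndependent ℚ l)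
    (h0 : ∑ i, l i * m i = 0) (hA : ∀ i, m i ∈ Submodule.span ℚ (Set.range l)) :
    (∃ a : Matrix (Fin n) (Fin n) ℚ, a.transpose = -a ∧ ∀ i, m i = ∑ j, (a i j : ℝ) * l j) ∨
    ∃ (q : ℕ) (γ : Fin q → ℝ) (c : Fin q → ℚ), 1 ≤ q ∧
    (∀ s, c s ≠ 0) ∧ LinearIndependent ℚ γ ∧
    (∀ s, γ s ∈ Submodule.span ℚ (Set.range l)) ∧
    ∑ s, (c s : ℝ) * γ s ^ 2 = 0 := by
  have h1 : ∀ i, ∃ c : Fin n → ℚ, ∑ j, c j • l j = m i := fun i =>
    (Submodule.mem_span_range_iff_exists_fun ℚ).1 (hA i)
  choose a0 ha0 using h1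
  have hS : ∀ s t, (fun s t => (a0 s t + a0 t s) / 2) s t =
      (fun s t => (a0 s t + a0 t s) / 2) t s := by
    intro s t
    simp only
    ring
  obtain ⟨r, P, c, hc, hSP, hP⟩ := NFM_diag (Fin n) (fun s t => (a0 s t + a0 t s) / 2) hS
  rcases Nat.eq_zero_or_pos r with hr | hr
  · left
    subst hr
    refine ⟨Matrix.of a0, ?_, ?_⟩
    · ext i j
      have := hSP i j
      simp only [Finset.univ_eq_empty, Finset.sum_empty] at this
      simp only [Matrix.transpose_apply, Matrix.of_apply, Matrix.neg_apply]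
      linarith
    · intro i
      rw [← ha0 i]
      simp only [Matrix.of_apply, Rat.smul_def]
  · right
    refine ⟨r, fun k => ∑ s, P k s • l s, c, hr, hc, NFM_li hl hP, ?_, ?_⟩
    · intro k
      exact Submodule.sum_mem _ fun s _ => Submodule.smul_mem _ _ (Submodule.subset_span ⟨s, rfl⟩)
    · rw [NFM_val (S := fun s t => (a0 s t + a0 t s) / 2) (u := a0) (fun s t => rfl) hSP l, ← h0]
      refine Finset.sum_congr rfl fun s _ => ?_
      rw [← ha0 s, ← Finset.sum_mul, mul_comm]
      simp only [Rat.smul_def]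

/-- change of basis in a bilinear expression -/
theorem NFM_basis {n : ℕ} {K : Type} [Fintype K] (b : Basis K ℚ (Fin n → ℚ)) (l m : Fin n → ℝ)
    (hl : LinearIndependent ℚ l) :
    LinearIndependent ℚ (fun k => ∑ i, b.repr (Pi.single i 1) k • l i) ∧
    (∀ i, l i ∈ Submodule.span ℚ (Set.range fun k => ∑ i, b.repr (Pi.single i 1) k • l i)) ∧
    ∑ i, l i * m i = ∑ k, (∑ i, b.repr (Pi.single i 1) k • l i) *
      Fintype.linearCombination ℚ m (b k) := by
  classical
  refine ⟨?_, ?_, ?_⟩
  · rw [Fintype.linearIndependent_iff] at hl ⊢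
    intro z hz
    have h1 : ∑ i, (∑ k, z k * b.repr (Pi.single i 1) k) • l i = 0 := by
      rw [← hz]
      simp only [Finset.smul_sum, Finset.sum_smul, smul_smul]
      rw [Finset.sum_comm]
    have h2 := hl _ h1
    let f : (Fin n → ℚ) →ₗ[ℚ] ℚ := ∑ k, z k • b.coord k
    have hf : f = 0 := by
      refine (Pi.basisFun ℚ (Fin n)).ext fun s => ?_
      simp only [f, LinearMap.sum_apply, LinearMap.smul_apply, Pi.basisFun_apply,
        Basis.coord_apply, smul_eq_mul, LinearMap.zero_apply]
      exact h2 s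
    intro k
    have h3 : f (b k) = 0 := by rw [hf]; rfl
    simp only [f, LinearMap.sum_apply, LinearMap.smul_apply, Basis.coord_apply, smul_eq_mul,
      Basis.repr_self] at h3
    rw [Finset.sum_eq_single k] at h3
    · simpa using h3
    · intro j _ hj
      rw [Finsupp.single_eq_of_ne hj, mul_zero]
    · intro h
      exact absurd (Finset.mem_univ k) h
  · intro i
    have h1 : l i = ∑ k, b k i • ∑ j, b.repr (Pi.single j 1) k • l j := by
      simp only [Finset.smul_sum, smul_smul]
      rw [Finset.sum_comm]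
      simp only [← Finset.sum_smul]
      have h2 : ∀ j, ∑ k, b k i * b.repr (Pi.single j 1) k = (Pi.single j (1 : ℚ) : Fin n → ℚ) i := by
        intro j
        conv_rhs => rw [← b.sum_repr (Pi.single j (1 : ℚ))]
        simp only [Finset.sum_apply, Pi.smul_apply, smul_eq_mul]
        refine Finset.sum_congr rfl fun k _ => ?_
        ring
      simp only [h2]
      rw [Finset.sum_eq_single i]
      · simp
      · intro j _ hj
        rw [Pi.single_eq_of_ne (Ne.symm hj), zero_smul]
      · intro h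
        exact absurd (Finset.mem_univ i) h
    rw [h1]
    exact Submodule.sum_mem _ fun k _ => Submodule.smul_mem _ _ (Submodule.subset_span ⟨k, rfl⟩)
  · have h1 : ∀ i, m i = ∑ k, b.repr (Pi.single i 1) k • Fintype.linearCombination ℚ m (b k) := by
      intro i
      have h2 : m i = Fintype.linearCombination ℚ m (Pi.single i 1) := by
        rw [Fintype.linearCombination_apply_single, one_smul]
      conv_lhs => rw [h2, ← b.sum_repr (Pi.single i (1 : ℚ))]
      simp only [map_sum, map_smul]
    conv_lhs => arg 2; intro i; rw [h1 i]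
    simp only [Finset.mul_sum, Finset.sum_mul]
    rw [Finset.sum_comm]
    refine Finset.sum_congr rfl fun k _ => Finset.sum_congr rfl fun i _ => ?_
    simp only [Rat.smul_def]
    ring

/-- the case that some `m i` is not in the span of `l` -/
theorem NFM_caseB (n : ℕ) (l m : Fin n → ℝ) (hl : LinearIndependent ℚ l)
    (h0 : ∑ i, l i * m i = 0) (hB : ¬ ∀ i, m i ∈ Submodule.span ℚ (Set.range l)) :
    ∃ (p q : ℕ) (α : Fin p → ℝ) (β : Fin p → ℝ) (γ : Fin q → ℝ) (c : Fin q → ℚ), 1 ≤ p + q ∧
    (∀ s, c s ≠ 0) ∧ LinearIndependent ℚ (Sum.elim α (Sum.elim β γ)) ∧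
    (∀ s, α s ∈ Submodule.span ℚ (Set.range l ∪ Set.range m)) ∧
    (∀ s, β s ∈ Submodule.span ℚ (Set.range l)) ∧ (∀ s, γ s ∈ Submodule.span ℚ (Set.range l)) ∧
    ∑ s, α s * β s + ∑ s, (c s : ℝ) * γ s ^ 2 = 0 := by
  classical
  set L : Submodule ℚ ℝ := Submodule.span ℚ (Set.range l) with hL
  set Mm : (Fin n → ℚ) →ₗ[ℚ] ℝ := Fintype.linearCombination ℚ m with hMm
  set N : Submodule ℚ (Fin n → ℚ) := L.comap Mm with hN
  obtain ⟨C, hC⟩ := N.exists_isCompl
  let bC := Module.finBasis ℚ C
  let bN := Module.finBasis ℚ N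
  let b : Basis (Fin (finrank ℚ C) ⊕ Fin (finrank ℚ N)) ℚ (Fin n → ℚ) :=
    (bC.prod bN).map (Submodule.prodEquivOfIsCompl C N hC.symm)
  have hbl : ∀ t, b (Sum.inl t) = (bC t : Fin n → ℚ) := by
    intro t
    simp [b]
  have hbr : ∀ s, b (Sum.inr s) = (bN s : Fin n → ℚ) := by
    intro s
    simp [b]
  obtain ⟨hβ, hspan, hval⟩ := NFM_basis b l m hl
  set β' : Fin (finrank ℚ C) ⊕ Fin (finrank ℚ N) → ℝ :=
    fun k => ∑ i, b.repr (Pi.single i 1) k • l i with hβ'
  have hval' : ∑ i, l i * m i = ∑ k, β' k * Mm (b k) := hval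
  have hβL : ∀ k, β' k ∈ L := fun k => Submodule.sum_mem _ fun i _ =>
    Submodule.smul_mem _ _ (Submodule.subset_span ⟨i, rfl⟩)
  have hLe : L ≤ Submodule.span ℚ (Set.range β') := Submodule.span_le.2 (by
    rintro _ ⟨i, rfl⟩
    exact hspan i)
  have hu : ∀ s : Fin (finrank ℚ N), ∃ u : Fin (finrank ℚ C) ⊕ Fin (finrank ℚ N) → ℚ,
      ∑ k, u k • β' k = Mm (b (Sum.inr s)) := by
    intro s
    apply (Submodule.mem_span_range_iff_exists_fun ℚ).1
    apply hLe
    rw [hbr]
    exact (bN s).2
  choose u hu using hu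
  obtain ⟨r, P, c, hc, hSP, hP⟩ := NFM_diag (Fin (finrank ℚ N))
    (fun s t => (u s (Sum.inr t) + u t (Sum.inr s)) / 2) (by
      intro s t
      ring)
  refine ⟨finrank ℚ C, r, fun t => Mm (b (Sum.inl t)) + ∑ s, u s (Sum.inl t) • β' (Sum.inr s),
    fun t => β' (Sum.inl t), fun k => ∑ s, P k s • β' (Sum.inr s), c, ?_, hc, ?_, ?_,
    fun t => hβL _, ?_, ?_⟩
  · by_contra hlt
    have hC0 : finrank ℚ C = 0 := by omega
    rw [Submodule.finrank_eq_zero] at hC0
    apply hB
    intro i
    have h1 : N = ⊤ := by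
      have := hC.sup_eq_top
      rwa [hC0, sup_bot_eq] at this
    have h2 : (Pi.single i 1 : Fin n → ℚ) ∈ N := by
      rw [h1]
      trivial
    have h3 : Mm (Pi.single i 1) ∈ L := h2
    rwa [hMm, Fintype.linearCombination_apply_single, one_smul] at h3
  · rw [Fintype.linearIndependent_iff]
    intro g hg
    simp only [Fintype.sum_sum_type, Sum.elim_inl, Sum.elim_inr] at hg
    have g1 : ∀ t, g (Sum.inl t) = 0 := by
      have h1 : Mm (∑ t, g (Sum.inl t) • (bC t : Fin n → ℚ)) ∈ L := by
        have h2 : Mm (∑ t, g (Sum.inl t) • (bC t : Fin n → ℚ)) =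
            -(∑ t, g (Sum.inl t) • ∑ s, u s (Sum.inl t) • β' (Sum.inr s) +
              (∑ t, g (Sum.inr (Sum.inl t)) • β' (Sum.inl t) +
              ∑ k, g (Sum.inr (Sum.inr k)) • ∑ s, P k s • β' (Sum.inr s))) := by
          rw [eq_neg_iff_add_eq_zero, ← hg, ← add_assoc]
          congr 1
          rw [map_sum, ← Finset.sum_add_distrib]
          refine Finset.sum_congr rfl fun t _ => ?_
          rw [map_smul, smul_add, hbl]
        rw [h2]
        refine Submodule.neg_mem _ (Submodule.add_mem _ ?_ (Submodule.add_mem _ ?_ ?_))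
        · exact Submodule.sum_mem _ fun t _ => Submodule.smul_mem _ _
            (Submodule.sum_mem _ fun s _ => Submodule.smul_mem _ _ (hβL _))
        · exact Submodule.sum_mem _ fun t _ => Submodule.smul_mem _ _ (hβL _)
        · exact Submodule.sum_mem _ fun t _ => Submodule.smul_mem _ _
            (Submodule.sum_mem _ fun s _ => Submodule.smul_mem _ _ (hβL _))
      have h3 : (∑ t, g (Sum.inl t) • (bC t : Fin n → ℚ)) ∈ N := h1
      have h4 : (∑ t, g (Sum.inl t) • (bC t : Fin n → ℚ)) ∈ C :=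
        Submodule.sum_mem _ fun t _ => Submodule.smul_mem _ _ (bC t).2
      have h5 : (∑ t, g (Sum.inl t) • (bC t : Fin n → ℚ)) = 0 :=
        Submodule.disjoint_def.1 hC.disjoint _ h3 h4
      have h6 : ∑ t, g (Sum.inl t) • bC t = 0 := by
        apply Subtype.ext
        push_cast
        exact h5
      exact Fintype.linearIndependent_iff.1 bC.linearIndependent _ h6
    have h7 : ∑ k, (Sum.elim (fun t => g (Sum.inr (Sum.inl t)))
        (fun s => ∑ k, g (Sum.inr (Sum.inr k)) * P k s) k) • β' k = 0 := by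
      simp only [Fintype.sum_sum_type, Sum.elim_inl, Sum.elim_inr]
      rw [← hg]
      simp only [g1, zero_smul, Finset.sum_const_zero, zero_add, Finset.smul_sum, Finset.sum_smul,
        smul_smul]
      congr 1
      rw [Finset.sum_comm]
    have h8 := Fintype.linearIndependent_iff.1 hβ _ h7
    have h9 : (fun k => g (Sum.inr (Sum.inr k))) = 0 := hP _ fun s => h8 (Sum.inr s)
    rintro (t | t | k)
    · exact g1 t
    · exact h8 (Sum.inl t)
    · exact congrFun h9 k
  · intro t
    refine Submodule.add_mem _ ?_ (Submodule.sum_mem _ fun s _ => Submodule.smul_mem _ _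
      (Submodule.span_mono Set.subset_union_left (hβL _)))
    rw [hMm, Fintype.linearCombination_apply]
    exact Submodule.sum_mem _ fun s _ => Submodule.smul_mem _ _
      (Submodule.subset_span (Or.inr ⟨s, rfl⟩))
  · intro k
    exact Submodule.sum_mem _ fun s _ => Submodule.smul_mem _ _ (hβL _)
  · have h1 := NFM_val (u := fun s t => u s (Sum.inr t)) (fun s t => rfl) hSP
      (fun s => β' (Sum.inr s))
    rw [h1]
    rw [h0, Fintype.sum_sum_type] at hval'
    rw [hval']
    have h2 : ∀ s, Mm (b (Sum.inr s)) =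
        ∑ t, (u s (Sum.inl t) : ℝ) * β' (Sum.inl t) +
        ∑ t, (u s (Sum.inr t) : ℝ) * β' (Sum.inr t) := by
      intro s
      have := hu s
      rw [Fintype.sum_sum_type] at this
      rw [← this]
      simp only [Rat.smul_def]
    simp only [h2]
    have h3 : ∑ x, (Mm (b (Sum.inl x)) + ∑ s, u s (Sum.inl x) • β' (Sum.inr s)) * β' (Sum.inl x) =
        ∑ x, β' (Sum.inl x) * Mm (b (Sum.inl x)) +
        ∑ s, β' (Sum.inr s) * ∑ t, (u s (Sum.inl t) : ℝ) * β' (Sum.inl t) := by
      simp only [add_mul, Finset.sum_add_distrib, Finset.sum_mul, Finset.mul_sum, Rat.smul_def]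
      congr 1
      · refine Finset.sum_congr rfl fun x _ => ?_
        rw [mul_comm]
      · rw [Finset.sum_comm]
        refine Finset.sum_congr rfl fun x _ => Finset.sum_congr rfl fun y _ => ?_
        ring
    rw [h3]
    simp only [mul_add, Finset.sum_add_distrib, Finset.mul_sum]
    rw [add_assoc]
    congr 2
    refine Finset.sum_congr rfl fun x _ => Finset.sum_congr rfl fun y _ => ?_
    ring

theorem pf_NFM : T_NFM := by
  intro n l m hl h0
  by_cases hA : ∀ i, m i ∈ Submodule.span ℚ (Set.range l)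
  · rcases NFM_caseA n l m hl h0 hA with h | ⟨q, γ, c, hq, hc, hγ, hγL, hs⟩
    · exact Or.inl h
    · right
      refine ⟨0, q, fun s => s.elim0, fun s => s.elim0, γ, c, by omega, hc, ?_,
        fun s => s.elim0, fun s => s.elim0, hγL, by simpa using hs⟩
      rw [Fintype.linearIndependent_iff] at hγ ⊢
      intro g hg
      simp only [Fintype.sum_sum_type, Sum.elim_inl, Sum.elim_inr, Finset.univ_eq_empty,
        Finset.sum_empty, zero_add] at hg
      have := hγ _ hg
      rintro (t | t | k)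
      · exact t.elim0
      · exact t.elim0
      · exact this k
  · exact Or.inr (NFM_caseB n l m hl h0 hA)

end Pool.Agent.H88.PKER
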